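import Mathlib

set_option autoImplicit false

/-!
Del Pezzo surfaces of degree two `w ^ 2 = d * F m n x y z` over the rational numbers, whose
28 bitangents are all rational, and the quaternion algebras given by seven of them.
-/

namespace Pool.Agent.Helper8.DP2

open Quaternion

/-- The ternary quartic form
`F = (m^2+n^2)^2 (x^4+y^4+z^4) - 2 (m^4+n^4) (x^2 y^2 + y^2 z^2 + z^2 x^2)`. -/
def F {R : Type*} [CommRing R] (m n : ℤ) (x y z : R) : R :=
  ((m : R) ^ 2 + (n : R) ^ 2) ^ 2 * (x ^ 4 + y ^ 4 + z ^ 4)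
    - 2 * ((m : R) ^ 4 + (n : R) ^ 4) * (x ^ 2 * y ^ 2 + y ^ 2 * z ^ 2 + z ^ 2 * x ^ 2)

/-- The constant `m^4 + m^2 n^2 + n^4`. -/
def kap {R : Type*} [CommRing R] (m n : ℤ) : R :=
  (m : R) ^ 4 + (m : R) ^ 2 * (n : R) ^ 2 + (n : R) ^ 4

/-- Seven linear forms; the lines `lin i = 0` are bitangents of `F = 0`
(they form an Aronhold set). -/
def lin {R : Type*} [CommRing R] (m n : ℤ) (x y z : R) : Fin 7 → R :=
  ![(m : R) * x - n * y, (n : R) * x + m * y,
    (m : R) * y - n * z, (n : R) * y + m * z,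
    (m : R) * z - n * x, (n : R) * z + m * x,
    x + y + z]

/-- The companion cubic forms: `scl i ^ 2 * F = qua i ^ 2 + lin i * com i`. -/
def com {R : Type*} [CommRing R] (m n : ℤ) (x y z : R) : Fin 7 → R :=
  ![4 * kap m n * ((m * x + n * y) * (n * x - m * y) * (n * x + m * y)),
    4 * kap m n * ((m * x - n * y) * (m * x + n * y) * (n * x - m * y)),
    4 * kap m n * ((m * y + n * z) * (n * y - m * z) * (n * y + m * z)),
    4 * kap m n * ((m * y - n * z) * (m * y + n * z) * (n * y - m * z)),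
    4 * kap m n * ((m * z + n * x) * (n * z - m * x) * (n * z + m * x)),
    4 * kap m n * ((m * z - n * x) * (m * z + n * x) * (n * z - m * x)),
    -(kap m n * ((-x + y + z) * (x - y + z) * (x + y - z)))]

/-- The quadratic forms with `scl i ^ 2 * F = qua i ^ 2 + lin i * com i`. -/
def qua {R : Type*} [CommRing R] (m n : ℤ) (x y z : R) : Fin 7 → R :=
  ![((m : R) ^ 2 + (n : R) ^ 2) ^ 2 * z ^ 2 - ((m : R) ^ 4 + (n : R) ^ 4) * (x ^ 2 + y ^ 2),
    ((m : R) ^ 2 + (n : R) ^ 2) ^ 2 * z ^ 2 - ((m : R) ^ 4 + (n : R) ^ 4) * (x ^ 2 + y ^ 2),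
    ((m : R) ^ 2 + (n : R) ^ 2) ^ 2 * x ^ 2 - ((m : R) ^ 4 + (n : R) ^ 4) * (y ^ 2 + z ^ 2),
    ((m : R) ^ 2 + (n : R) ^ 2) ^ 2 * x ^ 2 - ((m : R) ^ 4 + (n : R) ^ 4) * (y ^ 2 + z ^ 2),
    ((m : R) ^ 2 + (n : R) ^ 2) ^ 2 * y ^ 2 - ((m : R) ^ 4 + (n : R) ^ 4) * (z ^ 2 + x ^ 2),
    ((m : R) ^ 2 + (n : R) ^ 2) ^ 2 * y ^ 2 - ((m : R) ^ 4 + (n : R) ^ 4) * (z ^ 2 + x ^ 2),
    (m : R) * n * (x ^ 2 + y ^ 2 + z ^ 2)]

/-- The scaling constants: `m^2+n^2` for the first six lines and `1` for the last one. -/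
def scl {R : Type*} [CommRing R] (m n : ℤ) (i : Fin 7) : R :=
  if i = 6 then 1 else (m : R) ^ 2 + (n : R) ^ 2

/-- Weighted homogeneous coordinates `(x : y : z : w)` of a `K`-point of the surface
`w ^ 2 = d * F m n x y z` in the weighted projective space `P(1,1,1,2)`. -/
structure Pt (m n d : ℤ) (K : Type*) [Field K] where
  x : K
  y : K
  z : K
  w : K
  ne : ¬ (x = 0 ∧ y = 0 ∧ z = 0)
  eq : w ^ 2 = (d : K) * F m n x y z

open Classical in
/-- The `i`-th entry at a point: the value of the linear form `lin i`, and, where this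
vanishes, the value of `d * com i`. On the surface `lin i * (d * com i)` is the norm
`(scl i * w) ^ 2 - d * qua i ^ 2`, so that both values define the same class near the point.
If both vanish then `d` is a square in `K`, every class is trivial and the entry is `1`. -/
noncomputable def ent {m n d : ℤ} {K : Type*} [Field K] (P : Pt m n d K) (i : Fin 7) : K :=
  if lin m n P.x P.y P.z i ≠ 0 then lin m n P.x P.y P.z i
  else if com m n P.x P.y P.z i ≠ 0 then (d : K) * com m n P.x P.y P.z i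
  else 1

open Classical in
/-- The local invariant at a `K`-point `P` of the class `A_T` of the quaternion algebra
`(∏ i ∈ T, lin i, d)`: it is `0` if the quaternion algebra `A_T(P)` over `K` is split
and `1` (that is, one half in `ℚ/ℤ`) if it is not. -/
noncomputable def inv {m n d : ℤ} {K : Type*} [Field K] (P : Pt m n d K)
    (T : Finset (Fin 7)) : ZMod 2 :=
  if Nonempty (ℍ[K, ∏ i ∈ T, ent P i, (d : K)] ≃ₐ[K] Matrix (Fin 2) (Fin 2) K) then 0 else 1

/-- Adelic points of the surface over `ℚ`. -/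
structure Adelic (m n d : ℤ) where
  real : Pt m n d ℝ
  fin : ∀ (p : ℕ) [Fact p.Prime], Pt m n d ℚ_[p]

open Classical in
/-- The local invariant of `A_T` at the prime `p` of an adelic point. -/
noncomputable def Adelic.invAt {m n d : ℤ} (x : Adelic m n d) (T : Finset (Fin 7)) (p : ℕ) :
    ZMod 2 :=
  if h : p.Prime then (haveI := Fact.mk h; inv (x.fin p) T) else 0

/-- The adelic point `x` is orthogonal to the class `A_T`: almost all local invariants of
`A_T` at `x` vanish, and their sum over all places of `ℚ` is zero. -/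
def Adelic.Orth {m n d : ℤ} (x : Adelic m n d) (T : Finset (Fin 7)) : Prop :=
  ∃ S : Finset ℕ, (∀ p ∉ S, x.invAt T p = 0) ∧ inv x.real T + ∑ p ∈ S, x.invAt T p = 0

/-- The classes `A_T`: here `T` is an even subset of the seven lines. They form a group
`(ℤ/2)^6` under symmetric difference. -/
def Cls : Type := {T : Finset (Fin 7) // Even T.card}

/-- `r` classes obstruct: there are `r` classes to which no adelic point is orthogonal. -/
def Obstruct (m n d : ℤ) (r : ℕ) : Prop :=
  ∃ α : Fin r → Cls, ∀ x : Adelic m n d, ∃ j, ¬ x.Orth (α j).1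

/-- The quartic `F = 0` is a smooth plane curve: over the complex numbers its three partial
derivatives have no common zero other than the origin. -/
def SmoothQuartic (m n : ℤ) : Prop :=
  ∀ x y z : ℂ,
    4 * (((m : ℂ) ^ 2 + (n : ℂ) ^ 2) ^ 2 * x ^ 3 - ((m : ℂ) ^ 4 + (n : ℂ) ^ 4) * x * (y ^ 2 + z ^ 2)) = 0 →
    4 * (((m : ℂ) ^ 2 + (n : ℂ) ^ 2) ^ 2 * y ^ 3 - ((m : ℂ) ^ 4 + (n : ℂ) ^ 4) * y * (z ^ 2 + x ^ 2)) = 0 →
    4 * (((m : ℂ) ^ 2 + (n : ℂ) ^ 2) ^ 2 * z ^ 3 - ((m : ℂ) ^ 4 + (n : ℂ) ^ 4) * z * (x ^ 2 + y ^ 2)) = 0 →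
    x = 0 ∧ y = 0 ∧ z = 0

/-! ### Auxiliary notions for the proof -/

/-- `a` is a norm from `K(√d)`. -/
def IsN (K : Type*) [Field K] (d a : K) : Prop := ∃ u v : K, a = u ^ 2 - d * v ^ 2

/-- The product of the bad primes: `2 m n (m^2-n^2)(m^2+n^2)(m^4+m^2n^2+n^4)`. -/
def bad (m n : ℤ) : ℤ := 2 * m * n * (m ^ 2 - n ^ 2) * (m ^ 2 + n ^ 2) * kap m n

/-- The vector `v` computes the local invariants of all classes at the point `P`. -/
def LocVec {m n d : ℤ} {K : Type*} [Field K] (P : Pt m n d K) (v : Fin 7 → ZMod 2) : Prop :=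
  ∀ T : Finset (Fin 7), Even T.card → inv P T = ∑ i ∈ T, v i

open Classical in
/-- Reduced entries at a point of the curve `F = 0` over `ℤ/p`. -/
noncomputable def red {p : ℕ} (m n : ℤ) (x y z : ZMod p) (i : Fin 7) : ZMod p :=
  if lin m n x y z i ≠ 0 then lin m n x y z i else - com m n x y z i

open Classical in
/-- The vector of quadratic characters of the reduced entries. -/
noncomputable def cls {p : ℕ} (m n : ℤ) (x y z : ZMod p) (i : Fin 7) : ZMod 2 :=
  if IsSquare (red m n x y z i) then 0 else 1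

/-- Normalised homogeneous coordinates. -/
def Nrm {R : Type*} [CommRing R] (x y z : R) : Prop :=
  x = 1 ∨ (x = 0 ∧ y = 1) ∨ (x = 0 ∧ y = 0 ∧ z = 1)

/-- The four (in fact eight, in pairs) sign vectors at a real point when `d < 0`. -/
def rvec (a b c : ZMod 2) : Fin 7 → ZMod 2 :=
  ![a, b, b, c, c, a, a * b + b * c + c * a]

/-- basic identity. -/
theorem basic {R : Type*} [CommRing R] (m n : ℤ) (x y z : R) (i : Fin 7) :
    (scl m n i) ^ 2 * F m n x y z = qua m n x y z i ^ 2 + lin m n x y z i * com m n x y z i := by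
  fin_cases i <;> simp [scl, F, qua, lin, com, kap] <;> ring

end Pool.Agent.Helper8.DP2
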