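import Pool.Agent.Helper8.DP2.Defs
import Pool.Agent.Helper18.DP2.Split
import Pool.Agent.Helper18.DP2.Ram
import Pool.Agent.Helper1.DP2.Norm2
import Pool.Agent.Helper4.DP2.Sq
import Pool.Agent.Helper4.DP2.Exist
import Pool.Agent.Helper22.DP2.Primitive
import Pool.Agent.Helper28.DP2.Alg
import Pool.Agent.Helper20.DP2.GoodInv
import Pool.Agent.Helper21.DP2.Real
import Pool.Agent.Helper10.DP2.C6u
import Pool.Agent.Helper10.DP2.C3u
import Pool.Agent.Helper19.DP2.Low311
import Pool.Agent.Helper42.DP2.C5u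
import Pool.Agent.Helper90.DP2.C4u
import Pool.Agent.Helper1.DP2.C5l
import Pool.Agent.Helper1.DP2.C4l

set_option autoImplicit false

namespace Pool.Agent.Helper8.DP2

open Quaternion

/-! ### Linear algebra over `ZMod 2` -/

/-- If fewer functionals, a vector outside a small set is killed by all of them. -/
theorem exists_killed {r k : ℕ} (hr : r ≤ k) (hk : k ≤ 7)
    (f : Fin r → ((Fin 7 → ZMod 2) →ₗ[ZMod 2] ZMod 2))
    (N : Finset (Fin 7 → ZMod 2)) (hN : N.card < 2 ^ (7 - k)) :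
    ∃ v, v ∉ N ∧ ∀ j, f j v = 0 := by
  classical
  let Φ : (Fin 7 → ZMod 2) →ₗ[ZMod 2] (Fin r → ZMod 2) := LinearMap.pi f
  have h1 : Module.finrank (ZMod 2) (LinearMap.range Φ) ≤ r := by
    have := Submodule.finrank_le (LinearMap.range Φ)
    simpa using this
  have h2 := LinearMap.finrank_range_add_finrank_ker Φ
  have h3 : Module.finrank (ZMod 2) (Fin 7 → ZMod 2) = 7 := by simp
  rw [h3] at h2
  have h4 : 7 - k ≤ Module.finrank (ZMod 2) (LinearMap.ker Φ) := by omega
  have h5 : Fintype.card (LinearMap.ker Φ) = 2 ^ Module.finrank (ZMod 2) (LinearMap.ker Φ) := by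
    have := Module.card_eq_pow_finrank (K := ZMod 2) (V := LinearMap.ker Φ)
    simpa [ZMod.card] using this
  have h6 : N.card < Fintype.card (LinearMap.ker Φ) := by
    rw [h5]
    exact lt_of_lt_of_le hN (Nat.pow_le_pow_right (by norm_num) h4)
  by_contra hcon
  push Not at hcon
  have h7 : Fintype.card (LinearMap.ker Φ) ≤ N.card := by
    have h8 : ∀ v : LinearMap.ker Φ, (v : Fin 7 → ZMod 2) ∈ N := by
      intro v
      by_contra hv
      obtain ⟨j, hj⟩ := hcon v hv
      apply hj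
      have := v.2
      rw [LinearMap.mem_ker] at this
      exact congrFun this j
    rw [← Finset.card_univ (α := LinearMap.ker Φ)]
    apply Finset.card_le_card_of_injOn
      (fun v : LinearMap.ker Φ => (v : Fin 7 → ZMod 2))
    · intro v _
      exact h8 v
    · intro v _ w _ h
      exact Subtype.ext h
  omega

/-- the functional of a class -/
def fT (T : Finset (Fin 7)) : (Fin 7 → ZMod 2) →ₗ[ZMod 2] ZMod 2 where
  toFun v := ∑ i ∈ T, v i
  map_add' v w := by simp [Finset.sum_add_distrib]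
  map_smul' c v := by simp [Finset.mul_sum]

theorem sum_const_even (T : Finset (Fin 7)) (hT : Even T.card) (t : ZMod 2) :
    ∑ _i ∈ T, t = 0 := by
  rw [Finset.sum_const]
  obtain ⟨k, hk⟩ := hT
  rw [hk, add_smul]
  exact CharTwo.add_self_eq_zero _

/-! ### Total vectors -/

/-- `v` is a total vector of the adelic point `x`. -/
def Tot {m n d : ℤ} (x : Adelic m n d) (v : Fin 7 → ZMod 2) : Prop :=
  ∀ T : Finset (Fin 7), Even T.card → (x.Orth T ↔ ∑ i ∈ T, v i = 0)

theorem tot_of {m n d : ℤ} (x : Adelic m n d) (S : Finset ℕ) (w0 : Fin 7 → ZMod 2)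
    (w : ℕ → Fin 7 → ZMod 2) (h0 : LocVec x.real w0)
    (hw : ∀ (p : ℕ) [Fact p.Prime], LocVec (x.fin p) (w p))
    (hS : ∀ p ∉ S, w p = 0) (hS' : ∀ p ∈ S, p.Prime) :
    Tot x (fun i => w0 i + ∑ p ∈ S, w p i) := by
  intro T hT
  have key : ∀ p, x.invAt T p = if p.Prime then ∑ i ∈ T, w p i else 0 := by
    intro p
    unfold Adelic.invAt
    split_ifs with h
    · have := Fact.mk h
      exact hw p T hT
    · rfl
  have hz : ∀ p ∉ S, x.invAt T p = 0 := by
    intro p hp
    rw [key, hS p hp]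
    simp
  have hsum : ∑ i ∈ T, (w0 i + ∑ p ∈ S, w p i) = inv x.real T + ∑ p ∈ S, x.invAt T p := by
    rw [Finset.sum_add_distrib, Finset.sum_comm, h0 T hT]
    congr 1
    apply Finset.sum_congr rfl
    intro p hp
    rw [key, if_pos (hS' p hp)]
  rw [hsum]
  constructor
  · rintro ⟨S', h1, h2⟩
    have e1 : ∑ p ∈ S, x.invAt T p = ∑ p ∈ S ∪ S', x.invAt T p := by
      apply Finset.sum_subset Finset.subset_union_left
      intro p _ hp
      exact hz p hp
    have e2 : ∑ p ∈ S', x.invAt T p = ∑ p ∈ S ∪ S', x.invAt T p := by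
      apply Finset.sum_subset Finset.subset_union_right
      intro p _ hp
      exact h1 p hp
    rw [e1, ← e2]
    exact h2
  · intro h
    exact ⟨S, hz, h⟩

theorem build {m n d : ℤ} (S : Finset ℕ) (w0 : Fin 7 → ZMod 2)
    (w : ℕ → Fin 7 → ZMod 2) (h0 : ∃ P : Pt m n d ℝ, LocVec P w0)
    (hw : ∀ (p : ℕ) [Fact p.Prime], ∃ P : Pt m n d ℚ_[p], LocVec P (w p))
    (hS : ∀ p ∉ S, w p = 0) (hS' : ∀ p ∈ S, p.Prime) :
    ∃ x : Adelic m n d, Tot x (fun i => w0 i + ∑ p ∈ S, w p i) := by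
  obtain ⟨R, hR⟩ := h0
  choose P hP using hw
  exact ⟨⟨R, P⟩, tot_of ⟨R, P⟩ S w0 w hR hP hS hS'⟩

/-- the trivial places -/
theorem triv_place {m n d : ℤ} (hm : m ≠ 0) (hd0 : d ≠ 0)
    (hbad : ∀ (p : ℕ) [Fact p.Prime], (p : ℤ) ∣ bad m n → IsSquare (d : ℚ_[p]))
    (p : ℕ) [Fact p.Prime] (hp : ¬ (p : ℤ) ∣ d) :
    (∀ P : Pt m n d ℚ_[p], LocVec P 0) ∧ Nonempty (Pt m n d ℚ_[p]) := by
  by_cases hb : (p : ℤ) ∣ bad m n
  · have h := sq_place (m := m) (n := n) (K := ℚ_[p]) hm hd0 (hbad p hb)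
    refine ⟨fun P T _ => ?_, h.2⟩
    rw [h.1 P T]
    simp
  · refine ⟨fun P T hT => ?_, good_nonempty hb hp⟩
    rw [good_inv hb hp P T hT]
    simp

/-- no `r < s` classes obstruct if enough vectors are realised -/
theorem lower_bound {m n d : ℤ} (s : ℕ) (k : ℕ) (hs1 : 1 ≤ s) (hk : k ≤ 7)
    (extra : ℕ) (hex : s - 1 + extra ≤ k)
    (g : Fin extra → ((Fin 7 → ZMod 2) →ₗ[ZMod 2] ZMod 2))
    (N : Finset (Fin 7 → ZMod 2)) (hN : N.card < 2 ^ (7 - k))
    (real : ∀ v : Fin 7 → ZMod 2, v ∉ N → (∀ j, g j v = 0) →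
      ∃ (x : Adelic m n d) (t : ZMod 2), Tot x (fun i => v i + t))
    (r : ℕ) (hr : Obstruct m n d r) : s ≤ r := by
  by_contra hlt
  obtain ⟨α, hα⟩ := hr
  have hr' : r ≤ s - 1 := by omega
  obtain ⟨v, hv, hv'⟩ := exists_killed (r := r + extra) (k := k) (by omega) hk
    (Fin.append (fun j => fT (α j).1) g) N hN
  obtain ⟨x, t, hx⟩ := real v hv (by
    intro j
    have := hv' (Fin.natAdd r j)
    simpa using this)
  obtain ⟨j, hj⟩ := hα x
  apply hj
  rw [hx _ (α j).2]
  rw [Finset.sum_add_distrib, sum_const_even _ (α j).2, add_zero]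
  have := hv' (Fin.castAdd extra j)
  rw [Fin.append_left] at this
  exact this

/-! ### Case `(3,1,-311)` -/

theorem bad_31 (p : ℕ) (hp : p.Prime) (h : (p : ℤ) ∣ bad 3 1) :
    p = 2 ∨ p = 3 ∨ p = 5 ∨ p = 7 ∨ p = 13 := by
  have e : bad 3 1 = 2 ^ 5 * 3 * 5 * 7 * 13 := by norm_num [bad, kap]
  rw [e] at h
  have h' : p ∣ 2 ^ 5 * 3 * 5 * 7 * 13 := by exact_mod_cast h
  rcases (Nat.Prime.dvd_mul hp).1 h' with h' | h'
  · rcases (Nat.Prime.dvd_mul hp).1 h' with h' | h'
    · rcases (Nat.Prime.dvd_mul hp).1 h' with h' | h'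
      · rcases (Nat.Prime.dvd_mul hp).1 h' with h' | h'
        · left
          exact (Nat.prime_dvd_prime_iff_eq hp Nat.prime_two).1 (hp.dvd_of_dvd_pow h')
        · right; left
          exact (Nat.prime_dvd_prime_iff_eq hp Nat.prime_three).1 h'
      · right; right; left
        exact (Nat.prime_dvd_prime_iff_eq hp (by norm_num)).1 h'
    · right; right; right; left
      exact (Nat.prime_dvd_prime_iff_eq hp (by norm_num)).1 h'
  · right; right; right; right
    exact (Nat.prime_dvd_prime_iff_eq hp (by norm_num)).1 h'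

theorem bad_21 (p : ℕ) (hp : p.Prime) (h : (p : ℤ) ∣ bad 2 1) :
    p = 2 ∨ p = 3 ∨ p = 5 ∨ p = 7 := by
  have e : bad 2 1 = 2 ^ 2 * 3 ^ 2 * 5 * 7 := by norm_num [bad, kap]
  rw [e] at h
  have h' : p ∣ 2 ^ 2 * 3 ^ 2 * 5 * 7 := by exact_mod_cast h
  rcases (Nat.Prime.dvd_mul hp).1 h' with h' | h'
  · rcases (Nat.Prime.dvd_mul hp).1 h' with h' | h'
    · rcases (Nat.Prime.dvd_mul hp).1 h' with h' | h'
      · left
        exact (Nat.prime_dvd_prime_iff_eq hp Nat.prime_two).1 (hp.dvd_of_dvd_pow h')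
      · right; left
        exact (Nat.prime_dvd_prime_iff_eq hp Nat.prime_three).1 (hp.dvd_of_dvd_pow h')
    · right; right; left
      exact (Nat.prime_dvd_prime_iff_eq hp (by norm_num)).1 h'
  · right; right; right
    exact (Nat.prime_dvd_prime_iff_eq hp (by norm_num)).1 h'

theorem bad_72 (p : ℕ) (hp : p.Prime) (h : (p : ℤ) ∣ bad 7 2) :
    p = 2 ∨ p = 3 ∨ p = 5 ∨ p = 7 ∨ p = 13 ∨ p = 53 ∨ p = 67 := by
  have e : bad 7 2 = 2 ^ 2 * 3 ^ 3 * 5 * 7 * 13 * 53 * 67 := by norm_num [bad, kap]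
  rw [e] at h
  have h' : p ∣ 2 ^ 2 * 3 ^ 3 * 5 * 7 * 13 * 53 * 67 := by exact_mod_cast h
  rcases (Nat.Prime.dvd_mul hp).1 h' with h' | h'
  · rcases (Nat.Prime.dvd_mul hp).1 h' with h' | h'
    · rcases (Nat.Prime.dvd_mul hp).1 h' with h' | h'
      · rcases (Nat.Prime.dvd_mul hp).1 h' with h' | h'
        · rcases (Nat.Prime.dvd_mul hp).1 h' with h' | h'
          · rcases (Nat.Prime.dvd_mul hp).1 h' with h' | h'
            · left
              exact (Nat.prime_dvd_prime_iff_eq hp Nat.prime_two).1 (hp.dvd_of_dvd_pow h')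
            · right; left
              exact (Nat.prime_dvd_prime_iff_eq hp Nat.prime_three).1 (hp.dvd_of_dvd_pow h')
          · right; right; left
            exact (Nat.prime_dvd_prime_iff_eq hp (by norm_num)).1 h'
        · right; right; right; left
          exact (Nat.prime_dvd_prime_iff_eq hp (by norm_num)).1 h'
      · right; right; right; right; left
        exact (Nat.prime_dvd_prime_iff_eq hp (by norm_num)).1 h'
    · right; right; right; right; right; left
      exact (Nat.prime_dvd_prime_iff_eq hp (by norm_num)).1 h'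
  · right; right; right; right; right; right
    exact (Nat.prime_dvd_prime_iff_eq hp (by norm_num)).1 h'

theorem sqh (p : ℕ) (d a : ℤ) [Fact p.Prime] (h : (p : ℤ) ∣ a * a - d) :
    IsSquare (d : ZMod p) := by
  refine ⟨(a : ZMod p), ?_⟩
  have := (ZMod.intCast_zmod_eq_zero_iff_dvd (a * a - d) p).2 h
  push_cast at this
  linear_combination -this

theorem sq_bad_31_311 (p : ℕ) [Fact p.Prime] (h : (p : ℤ) ∣ bad 3 1) :
    IsSquare ((-311 : ℤ) : ℚ_[p]) := by
  rcases bad_31 p Fact.out h with rfl | rfl | rfl | rfl | rfl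
  · exact isSquare_two _ (by norm_num)
  · exact isSquare_int (by norm_num) _ (by norm_num) (sqh _ _ 1 (by norm_num))
  · exact isSquare_int (by norm_num) _ (by norm_num) (sqh _ _ 2 (by norm_num))
  · exact isSquare_int (by norm_num) _ (by norm_num) (sqh _ _ 2 (by norm_num))
  · exact isSquare_int (by norm_num) _ (by norm_num) (sqh _ _ 1 (by norm_num))

theorem sq_bad_31_3649 (p : ℕ) [Fact p.Prime] (h : (p : ℤ) ∣ bad 3 1) :
    IsSquare ((41 * 89 : ℤ) : ℚ_[p]) := by
  rcases bad_31 p Fact.out h with rfl | rfl | rfl | rfl | rfl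
  · exact isSquare_two _ (by norm_num)
  · exact isSquare_int (by norm_num) _ (by norm_num) (sqh _ _ 1 (by norm_num))
  · exact isSquare_int (by norm_num) _ (by norm_num) (sqh _ _ 2 (by norm_num))
  · exact isSquare_int (by norm_num) _ (by norm_num) (sqh _ _ 3 (by norm_num))
  · exact isSquare_int (by norm_num) _ (by norm_num) (sqh _ _ 3 (by norm_num))

theorem sq_bad_21_2881 (p : ℕ) [Fact p.Prime] (h : (p : ℤ) ∣ bad 2 1) :
    IsSquare ((43 * 67 : ℤ) : ℚ_[p]) := by
  rcases bad_21 p Fact.out h with rfl | rfl | rfl | rfl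
  · exact isSquare_two _ (by norm_num)
  · exact isSquare_int (by norm_num) _ (by norm_num) (sqh _ _ 1 (by norm_num))
  · exact isSquare_int (by norm_num) _ (by norm_num) (sqh _ _ 1 (by norm_num))
  · exact isSquare_int (by norm_num) _ (by norm_num) (sqh _ _ 2 (by norm_num))

theorem sq_bad_72_311 (p : ℕ) [Fact p.Prime] (h : (p : ℤ) ∣ bad 7 2) :
    IsSquare ((-311 : ℤ) : ℚ_[p]) := by
  rcases bad_72 p Fact.out h with rfl | rfl | rfl | rfl | rfl | rfl | rfl
  · exact isSquare_two _ (by norm_num)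
  · exact isSquare_int (by norm_num) _ (by norm_num) (sqh _ _ 1 (by norm_num))
  · exact isSquare_int (by norm_num) _ (by norm_num) (sqh _ _ 2 (by norm_num))
  · exact isSquare_int (by norm_num) _ (by norm_num) (sqh _ _ 2 (by norm_num))
  · exact isSquare_int (by norm_num) _ (by norm_num) (sqh _ _ 1 (by norm_num))
  · exact isSquare_int (by norm_num) _ (by norm_num) (sqh _ _ 22 (by norm_num))
  · exact isSquare_int (by norm_num) _ (by norm_num) (sqh _ _ 15 (by norm_num))

/-- a sufficient test for non-orthogonality of a pair class -/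
def pairCls (i j : Fin 7) (h : i ≠ j) : Cls := ⟨{i, j}, by rw [Finset.card_pair h]; decide⟩

theorem pair_orth {m n d : ℤ} {x : Adelic m n d} {v : Fin 7 → ZMod 2} (hx : Tot x v)
    (i j : Fin 7) (h : i ≠ j) : x.Orth (pairCls i j h).1 ↔ v i = v j := by
  rw [hx _ (pairCls i j h).2]
  show ∑ k ∈ ({i, j} : Finset (Fin 7)), v k = 0 ↔ _
  rw [Finset.sum_pair h]
  constructor
  · intro h'
    have := add_eq_zero_iff_eq_neg.1 h'
    rw [this, CharTwo.neg_eq]
  · intro h'
    rw [h']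
    exact CharTwo.add_self_eq_zero _

instance fact311 : Fact (Nat.Prime 311) := ⟨by norm_num⟩
instance fact41 : Fact (Nat.Prime 41) := ⟨by norm_num⟩
instance fact89 : Fact (Nat.Prime 89) := ⟨by norm_num⟩
instance fact43 : Fact (Nat.Prime 43) := ⟨by norm_num⟩
instance fact67 : Fact (Nat.Prime 67) := ⟨by norm_num⟩

theorem dvd_311 {p : ℕ} (hp : p.Prime) (h : (p : ℤ) ∣ -311) : p = 311 := by
  have h' : p ∣ 311 := by
    have := (dvd_neg).1 h
    exact_mod_cast this
  exact (Nat.prime_dvd_prime_iff_eq hp (by norm_num)).1 h'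

theorem dvd_3649 {p : ℕ} (hp : p.Prime) (h : (p : ℤ) ∣ 41 * 89) : p = 41 ∨ p = 89 := by
  have h' : p ∣ 41 * 89 := by exact_mod_cast h
  rcases (Nat.Prime.dvd_mul hp).1 h' with h' | h'
  · left
    exact (Nat.prime_dvd_prime_iff_eq hp (by norm_num)).1 h'
  · right
    exact (Nat.prime_dvd_prime_iff_eq hp (by norm_num)).1 h'

theorem dvd_2881 {p : ℕ} (hp : p.Prime) (h : (p : ℤ) ∣ 43 * 67) : p = 43 ∨ p = 67 := by
  have h' : p ∣ 43 * 67 := by exact_mod_cast h
  rcases (Nat.Prime.dvd_mul hp).1 h' with h' | h'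
  · left
    exact (Nat.prime_dvd_prime_iff_eq hp (by norm_num)).1 h'
  · right
    exact (Nat.prime_dvd_prime_iff_eq hp (by norm_num)).1 h'

/-! #### one ramified prime `311` and the real place -/

section One

variable {m n : ℤ}

/-- the total vector of an arbitrary adelic point for `d = -311` -/
theorem tot_311 (hn : 0 < n) (hmn : n < m)
    (hb : ¬ ((311 : ℕ) : ℤ) ∣ bad m n)
    (hbad : ∀ (p : ℕ) [Fact p.Prime], (p : ℤ) ∣ bad m n → IsSquare ((-311 : ℤ) : ℚ_[p]))
    (x : Adelic m n (-311)) :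
    ∃ (X Y Z : ZMod 311) (a b c : ZMod 2), Nrm X Y Z ∧ F m n X Y Z = 0 ∧
      Tot x (fun i => cls m n X Y Z i + rvec a b c i) := by
  obtain ⟨a, b, c, hR⟩ := real_neg hn hmn (by norm_num) x.real
  obtain ⟨X, Y, Z, h1, h2, h3⟩ := ram_inv (p := 311) (e := -1) hb (by norm_num) (by norm_num)
    (x.fin 311)
  refine ⟨X, Y, Z, a, b, c, h1, h2, ?_⟩
  have := tot_of x {311} (rvec a b c)
    (fun p => if p = 311 then cls m n X Y Z else 0) hR ?_ ?_ ?_
  · convert this using 2
    simp [add_comm]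
  · intro p hp
    by_cases h : p = 311
    · subst h
      simpa using h3
    · simp only [h, if_false]
      exact (triv_place (by omega) (by norm_num) hbad p
        (fun h' => h (dvd_311 hp.out h'))).1 _
  · intro p hp
    simp only [Finset.mem_singleton] at hp
    simp [hp]
  · intro p hp
    simp only [Finset.mem_singleton] at hp
    subst hp
    norm_num

theorem build_311 (hn : 0 < n) (hmn : n < m)
    (hb : ¬ ((311 : ℕ) : ℤ) ∣ bad m n)
    (hbad : ∀ (p : ℕ) [Fact p.Prime], (p : ℤ) ∣ bad m n → IsSquare ((-311 : ℤ) : ℚ_[p]))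
    (X Y Z g : ℤ) (hF : F m n X Y Z = 311 * g) (hg : (((-1) * g : ℤ) : ZMod 311) ≠ 0)
    (hs : IsSquare (((-1) * g : ℤ) : ZMod 311)) (a b c : ZMod 2) :
    ∃ x : Adelic m n (-311), Tot x
      (fun i => cls m n (X : ZMod 311) (Y : ZMod 311) (Z : ZMod 311) i + rvec a b c i) := by
  obtain ⟨Q, hQ⟩ := ram_exists (p := 311) (d := -311) (e := -1) hb (by norm_num) (by norm_num)
    X Y Z g (by exact_mod_cast hF) hg hs
  have key := build (m := m) (n := n) (d := -311) {311} (rvec a b c)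
    (fun p => if h : p = 311 then cls m n (X : ZMod 311) (Y : ZMod 311) (Z : ZMod 311) else 0)
    (real_neg_exists hn hmn (by norm_num) a b c) ?_ ?_ ?_
  · obtain ⟨x, hx⟩ := key
    refine ⟨x, ?_⟩
    convert hx using 2
    simp [add_comm]
  · intro p hp
    by_cases h : p = 311
    · subst h
      simpa using ⟨Q, hQ⟩
    · simp only [h, dif_neg, not_false_iff]
      have := triv_place (m := m) (n := n) (by omega) (by norm_num) hbad p
        (fun h' => h (dvd_311 hp.out h'))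
      exact ⟨this.2.some, this.1 _⟩
  · intro p hp
    simp only [Finset.mem_singleton] at hp
    simp [hp]
  · intro p hp
    simp only [Finset.mem_singleton] at hp
    subst hp
    norm_num

end One

/-! #### two ramified primes, `d = q * q' > 0` -/

section Two

variable {m n : ℤ}

theorem tot_two (q q' : ℕ) [hq : Fact q.Prime] [hq' : Fact q'.Prime] (hne : q ≠ q')
    (hm : m ≠ 0) (hb : ¬ (q : ℤ) ∣ bad m n) (hb' : ¬ (q' : ℤ) ∣ bad m n)
    (hd : ∀ p : ℕ, p.Prime → (p : ℤ) ∣ (q : ℤ) * q' → p = q ∨ p = q')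
    (hqq : ¬ (q : ℤ) ∣ q') (hqq' : ¬ (q' : ℤ) ∣ q)
    (hbad : ∀ (p : ℕ) [Fact p.Prime], (p : ℤ) ∣ bad m n →
      IsSquare (((q : ℤ) * q' : ℤ) : ℚ_[p]))
    (x : Adelic m n ((q : ℤ) * q')) :
    ∃ (X Y Z : ZMod q) (X' Y' Z' : ZMod q'), Nrm X Y Z ∧ F m n X Y Z = 0 ∧
      Nrm X' Y' Z' ∧ F m n X' Y' Z' = 0 ∧
      Tot x (fun i => cls m n X Y Z i + cls m n X' Y' Z' i) := by
  have hq0 : (0 : ℤ) < q := by exact_mod_cast hq.out.pos
  have hq0' : (0 : ℤ) < q' := by exact_mod_cast hq'.out.pos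
  have hpos : (0 : ℤ) < (q : ℤ) * q' := mul_pos hq0 hq0'
  have hR : LocVec x.real 0 := by
    intro T _
    rw [(real_pos hm hpos).1]
    simp
  obtain ⟨X, Y, Z, h1, h2, h3⟩ := ram_inv (p := q) (e := q') hb rfl hqq (x.fin q)
  obtain ⟨X', Y', Z', h1', h2', h3'⟩ := ram_inv (p := q') (e := q) hb' (mul_comm _ _) hqq'
    (x.fin q')
  refine ⟨X, Y, Z, X', Y', Z', h1, h2, h1', h2', ?_⟩
  have := tot_of x {q, q'} 0
    (fun p => if p = q then cls m n X Y Z else if p = q' then cls m n X' Y' Z' else 0)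
    hR ?_ ?_ ?_
  · convert this using 2
    rw [Finset.sum_pair hne]
    simp [hne.symm]
  · intro p hp
    by_cases h : p = q
    · subst h
      simpa using h3
    · by_cases h' : p = q'
      · subst h'
        simp only [h, if_false, if_true]
        exact h3'
      · simp only [h, h', if_false]
        exact (triv_place hm hpos.ne' hbad p
          (fun hdv => (hd p hp.out hdv).elim h h')).1 _
  · intro p hp
    simp only [Finset.mem_insert, Finset.mem_singleton, not_or] at hp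
    simp [hp.1, hp.2]
  · intro p hp
    simp only [Finset.mem_insert, Finset.mem_singleton] at hp
    rcases hp with rfl | rfl
    · exact hq.out
    · exact hq'.out

theorem build_two (q q' : ℕ) [hq : Fact q.Prime] [hq' : Fact q'.Prime] (hne : q ≠ q')
    (hm : m ≠ 0) (hb : ¬ (q : ℤ) ∣ bad m n) (hb' : ¬ (q' : ℤ) ∣ bad m n)
    (hd : ∀ p : ℕ, p.Prime → (p : ℤ) ∣ (q : ℤ) * q' → p = q ∨ p = q')
    (hqq : ¬ (q : ℤ) ∣ q') (hqq' : ¬ (q' : ℤ) ∣ q)
    (hbad : ∀ (p : ℕ) [Fact p.Prime], (p : ℤ) ∣ bad m n →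
      IsSquare (((q : ℤ) * q' : ℤ) : ℚ_[p]))
    (X Y Z g : ℤ) (hF : F m n X Y Z = q * g) (hg : (((q' : ℤ) * g : ℤ) : ZMod q) ≠ 0)
    (hs : IsSquare (((q' : ℤ) * g : ℤ) : ZMod q))
    (X' Y' Z' g' : ℤ) (hF' : F m n X' Y' Z' = q' * g')
    (hg' : (((q : ℤ) * g' : ℤ) : ZMod q') ≠ 0)
    (hs' : IsSquare (((q : ℤ) * g' : ℤ) : ZMod q')) :
    ∃ x : Adelic m n ((q : ℤ) * q'), Tot x
      (fun i => cls m n (X : ZMod q) (Y : ZMod q) (Z : ZMod q) i +
        cls m n (X' : ZMod q') (Y' : ZMod q') (Z' : ZMod q') i) := by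
  have hq0 : (0 : ℤ) < q := by exact_mod_cast hq.out.pos
  have hq0' : (0 : ℤ) < q' := by exact_mod_cast hq'.out.pos
  have hpos : (0 : ℤ) < (q : ℤ) * q' := mul_pos hq0 hq0'
  obtain ⟨Q, hQ⟩ := ram_exists (p := q) (d := (q : ℤ) * q') (e := q') hb rfl hqq
    X Y Z g hF hg hs
  obtain ⟨Q', hQ'⟩ := ram_exists (p := q') (d := (q : ℤ) * q') (e := q) hb' (mul_comm _ _) hqq'
    X' Y' Z' g' hF' hg' hs'
  have hR : ∃ P : Pt m n ((q : ℤ) * q') ℝ, LocVec P 0 := by
    obtain ⟨P⟩ := (real_pos (n := n) hm hpos).2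
    refine ⟨P, ?_⟩
    intro T _
    rw [(real_pos hm hpos).1]
    simp
  have key := build (m := m) (n := n) (d := (q : ℤ) * q') {q, q'} 0
    (fun p => if p = q then cls m n (X : ZMod q) (Y : ZMod q) (Z : ZMod q) else
      if p = q' then cls m n (X' : ZMod q') (Y' : ZMod q') (Z' : ZMod q') else 0)
    hR ?_ ?_ ?_
  · obtain ⟨x, hx⟩ := key
    refine ⟨x, ?_⟩
    convert hx using 2
    rw [Finset.sum_pair hne]
    simp [hne.symm]
  · intro p hp
    by_cases h : p = q
    · subst h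
      simpa using ⟨Q, hQ⟩
    · by_cases h' : p = q'
      · subst h'
        simp only [h, if_false, if_true]
        exact ⟨Q', hQ'⟩
      · simp only [h, h', if_false]
        have := triv_place (m := m) (n := n) hm hpos.ne' hbad p
          (fun hdv => (hd p hp.out hdv).elim h h')
        exact ⟨this.2.some, this.1 _⟩
  · intro p hp
    simp only [Finset.mem_insert, Finset.mem_singleton, not_or] at hp
    simp [hp.1, hp.2]
  · intro p hp
    simp only [Finset.mem_insert, Finset.mem_singleton] at hp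
    rcases hp with rfl | rfl
    · exact hq.out
    · exact hq'.out

end Two

end Pool.Agent.Helper8.DP2
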