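import Pool.Agent.Helper8.DP2.Assembly

set_option autoImplicit false

namespace Pool.Agent.Helper8.DP2

open Quaternion

/-- constant vectors -/
def N6 : Finset (Fin 7 → ZMod 2) := Finset.univ.filter (fun v => ∀ j, v j = v 6)

/-- vectors with all first six entries equal -/
def N5 : Finset (Fin 7 → ZMod 2) :=
  Finset.univ.filter (fun v => (∀ j, v j = v 6) ∨ (∀ j : Fin 6, v j.castSucc = v 6 + 1))

/-- the 3-space of case 3, with constants -/
def N3 : Finset (Fin 7 → ZMod 2) :=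
  Finset.univ.filter (fun v => v 3 = v 4 ∧ v 1 = v 2 ∧ v 0 = v 5)

theorem N6_card : N6.card = 2 := by decide +kernel

theorem N5_card : N5.card = 4 := by decide +kernel

theorem N3_card : N3.card = 16 := by decide +kernel

theorem ndvd_311_31 : ¬ ((311 : ℕ) : ℤ) ∣ bad 3 1 := by norm_num [bad, kap]

theorem ndvd_311_72 : ¬ ((311 : ℕ) : ℤ) ∣ bad 7 2 := by norm_num [bad, kap]

theorem ndvd_41 : ¬ ((41 : ℕ) : ℤ) ∣ bad 3 1 := by norm_num [bad, kap]

theorem ndvd_89 : ¬ ((89 : ℕ) : ℤ) ∣ bad 3 1 := by norm_num [bad, kap]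

theorem ndvd_43 : ¬ ((43 : ℕ) : ℤ) ∣ bad 2 1 := by norm_num [bad, kap]

theorem ndvd_67 : ¬ ((67 : ℕ) : ℤ) ∣ bad 2 1 := by norm_num [bad, kap]

/-! ### six classes -/

theorem real6 (v : Fin 7 → ZMod 2) (hv : v ∉ N6) :
    ∃ (x : Adelic 3 1 (-311)) (t : ZMod 2), Tot x (fun i => v i + t) := by
  have hv' : ∃ j, v j ≠ v 6 := by
    by_contra h
    push Not at h
    exact hv (by simp [N6, h])
  obtain ⟨X, Y, Z, g, hF, hg, hs, a, b, c, t, ht⟩ := c6_lower v hv'
  obtain ⟨x, hx⟩ := build_311 (m := 3) (n := 1) (by norm_num) (by norm_num) ndvd_311_31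
    sq_bad_31_311 X Y Z g hF hg hs a b c
  refine ⟨x, t, ?_⟩
  have e := funext (fun i => (ht i).symm)
  rw [e]
  exact hx

theorem case6 : Nonempty (Adelic 3 1 (-311)) ∧ IsLeast {r | Obstruct 3 1 (-311) r} 6 := by
  refine ⟨?_, ?_, ?_⟩
  · obtain ⟨x, _⟩ := real6 (fun i => if i = 0 then 1 else 0) (by decide +kernel)
    exact ⟨x⟩
  · refine ⟨fun j : Fin 6 => pairCls j.castSucc 6 (Fin.castSucc_lt_last j).ne, ?_⟩
    intro x
    obtain ⟨X, Y, Z, a, b, c, h1, h2, hx⟩ := tot_311 (m := 3) (n := 1) (by norm_num)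
      (by norm_num) ndvd_311_31 sq_bad_31_311 x
    obtain ⟨j, hj⟩ := c6_upper X Y Z h1 h2 a b c
    have hj6 : j ≠ 6 := by
      rintro rfl
      exact hj rfl
    obtain ⟨i, rfl⟩ : ∃ i : Fin 6, j = i.castSucc := by
      refine ⟨j.castPred ?_, ?_⟩
      · intro h
        exact hj6 h
      · simp
    refine ⟨i, ?_⟩
    rw [pair_orth hx]
    exact hj
  · intro r hr
    refine lower_bound 6 5 (by norm_num) (by norm_num) 0 (by norm_num) Fin.elim0 N6
      (by rw [N6_card]; norm_num) ?_ r hr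
    intro v hv _
    exact real6 v hv

/-! ### five classes -/

theorem real5 (v : Fin 7 → ZMod 2) (hv : v ∉ N5) :
    ∃ (x : Adelic 2 1 (43 * 67)) (t : ZMod 2), Tot x (fun i => v i + t) := by
  have hv' : (∃ j, v j ≠ v 6) ∧ (∃ j : Fin 6, v j.castSucc ≠ v 6 + 1) := by
    constructor
    · by_contra h
      push Not at h
      exact hv (by simp only [N5, Finset.mem_filter, Finset.mem_univ, true_and]; exact Or.inl h)
    · by_contra h
      push Not at h
      exact hv (by simp only [N5, Finset.mem_filter, Finset.mem_univ, true_and]; exact Or.inr h)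
  obtain ⟨X, Y, Z, g, X', Y', Z', g', hF, hg, hs, hF', hg', hs', t, ht⟩ := c5_lower v hv'.1 hv'.2
  obtain ⟨x, hx⟩ := build_two (m := 2) (n := 1) 43 67 (by norm_num) (by norm_num)
    ndvd_43 ndvd_67 (fun p hp h => dvd_2881 hp h) (by norm_num) (by norm_num)
    (fun p _ h => sq_bad_21_2881 p h) X Y Z g hF hg hs X' Y' Z' g' hF' hg' hs'
  refine ⟨x, t, ?_⟩
  have e := funext (fun i => (ht i).symm)
  rw [e]
  exact hx

theorem case5 : Nonempty (Adelic 2 1 (43 * 67)) ∧ IsLeast {r | Obstruct 2 1 (43 * 67) r} 5 := by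
  refine ⟨?_, ?_, ?_⟩
  · obtain ⟨x, _⟩ := real5 (fun i => if i = 0 then 1 else 0) (by decide +kernel)
    exact ⟨x⟩
  · refine ⟨fun j : Fin 5 => pairCls j.castSucc.castSucc 5 ?_, ?_⟩
    · intro h
      have := congrArg Fin.val h
      have h2 := j.2
      simp at this
      omega
    intro x
    obtain ⟨X, Y, Z, X', Y', Z', h1, h2, h1', h2', hx⟩ := tot_two (m := 2) (n := 1) 43 67
      (by norm_num) (by norm_num) ndvd_43 ndvd_67 (fun p hp h => dvd_2881 hp h) (by norm_num)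
      (by norm_num) (fun p _ h => sq_bad_21_2881 p h) x
    obtain ⟨j, hj⟩ := c5_upper X Y Z h1 h2 X' Y' Z' h1' h2'
    refine ⟨j, ?_⟩
    have key := pair_orth (m := 2) (n := 1) (d := 43 * 67) (x := x) hx j.castSucc.castSucc 5 (by
      intro h
      have := congrArg Fin.val h
      have h2 := j.2
      simp at this
      omega)
    intro hO
    exact hj (key.1 hO)
  · intro r hr
    refine lower_bound 5 4 (by norm_num) (by norm_num) 0 (by norm_num) Fin.elim0 N5
      (by rw [N5_card]; norm_num) ?_ r hr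
    intro v hv _
    exact real5 v hv

/-! ### four classes -/

theorem real4 (v : Fin 7 → ZMod 2) (hv : v ∉ N5) (h01 : v 0 = v 1) :
    ∃ (x : Adelic 3 1 (41 * 89)) (t : ZMod 2), Tot x (fun i => v i + t) := by
  have hv' : (∃ j, v j ≠ v 6) ∧ (∃ j : Fin 6, v j.castSucc ≠ v 6 + 1) := by
    constructor
    · by_contra h
      push Not at h
      exact hv (by simp only [N5, Finset.mem_filter, Finset.mem_univ, true_and]; exact Or.inl h)
    · by_contra h
      push Not at h
      exact hv (by simp only [N5, Finset.mem_filter, Finset.mem_univ, true_and]; exact Or.inr h)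
  obtain ⟨X, Y, Z, g, X', Y', Z', g', hF, hg, hs, hF', hg', hs', t, ht⟩ :=
    c4_lower v hv'.1 hv'.2 h01
  obtain ⟨x, hx⟩ := build_two (m := 3) (n := 1) 41 89 (by norm_num) (by norm_num)
    ndvd_41 ndvd_89 (fun p hp h => dvd_3649 hp h) (by norm_num) (by norm_num)
    (fun p _ h => sq_bad_31_3649 p h) X Y Z g hF hg hs X' Y' Z' g' hF' hg' hs'
  refine ⟨x, t, ?_⟩
  have e := funext (fun i => (ht i).symm)
  rw [e]
  exact hx

/-- the extra functional `v 0 + v 1` -/
def g01 : (Fin 7 → ZMod 2) →ₗ[ZMod 2] ZMod 2 := fT {0, 1}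

theorem g01_apply (v : Fin 7 → ZMod 2) : g01 v = v 0 + v 1 := by
  show ∑ k ∈ ({0, 1} : Finset (Fin 7)), v k = _
  rw [Finset.sum_pair (by decide)]

theorem case4 : Nonempty (Adelic 3 1 (41 * 89)) ∧ IsLeast {r | Obstruct 3 1 (41 * 89) r} 4 := by
  refine ⟨?_, ?_, ?_⟩
  · obtain ⟨x, _⟩ := real4 (fun i => if i = 2 then 1 else 0) (by decide +kernel) (by decide)
    exact ⟨x⟩
  · refine ⟨![pairCls 0 2 (by decide), pairCls 2 4 (by decide), pairCls 1 3 (by decide),
      pairCls 3 5 (by decide)], ?_⟩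
    intro x
    obtain ⟨X, Y, Z, X', Y', Z', h1, h2, h1', h2', hx⟩ := tot_two (m := 3) (n := 1) 41 89
      (by norm_num) (by norm_num) ndvd_41 ndvd_89 (fun p hp h => dvd_3649 hp h) (by norm_num)
      (by norm_num) (fun p _ h => sq_bad_31_3649 p h) x
    have hup := c4_upper X Y Z h1 h2 X' Y' Z' h1' h2'
      (fun i => cls 3 1 X Y Z i + cls 3 1 X' Y' Z' i) (fun _ => rfl)
    by_contra hcon
    push Not at hcon
    have e0 := (pair_orth (m := 3) (n := 1) (d := 41 * 89) (x := x) hx 0 2 (by decide)).1 (hcon 0)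
    have e1 := (pair_orth (m := 3) (n := 1) (d := 41 * 89) (x := x) hx 2 4 (by decide)).1 (hcon 1)
    have e2 := (pair_orth (m := 3) (n := 1) (d := 41 * 89) (x := x) hx 1 3 (by decide)).1 (hcon 2)
    have e3 := (pair_orth (m := 3) (n := 1) (d := 41 * 89) (x := x) hx 3 5 (by decide)).1 (hcon 3)
    exact hup ⟨e0, e1, e2, e3⟩
  · intro r hr
    refine lower_bound 4 4 (by norm_num) (by norm_num) 1 (by norm_num) (fun _ => g01) N5
      (by rw [N5_card]; norm_num) ?_ r hr
    intro v hv hg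
    have h01 : v 0 = v 1 := by
      have h := hg 0
      rw [g01_apply] at h
      have := add_eq_zero_iff_eq_neg.1 h
      rw [this, CharTwo.neg_eq]
    exact real4 v hv h01

/-! ### three classes -/

theorem real3 (v : Fin 7 → ZMod 2) (hv : v ∉ N3) :
    ∃ (x : Adelic 7 2 (-311)) (t : ZMod 2), Tot x (fun i => v i + t) := by
  have hv' : ¬ (v 3 = v 4 ∧ v 1 = v 2 ∧ v 0 = v 5) := by
    intro h
    exact hv (by simp only [N3, Finset.mem_filter, Finset.mem_univ, true_and]; exact h)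
  obtain ⟨X, Y, Z, g, hF, hg, hs, a, b, c, t, ht⟩ := c3_lower v hv'
  obtain ⟨x, hx⟩ := build_311 (m := 7) (n := 2) (by norm_num) (by norm_num) ndvd_311_72
    sq_bad_72_311 X Y Z g hF hg hs a b c
  refine ⟨x, t, ?_⟩
  have e := funext (fun i => (ht i).symm)
  rw [e]
  exact hx

theorem case3 : Nonempty (Adelic 7 2 (-311)) ∧ IsLeast {r | Obstruct 7 2 (-311) r} 3 := by
  refine ⟨?_, ?_, ?_⟩
  · obtain ⟨x, _⟩ := real3 (fun i => if i = 0 then 1 else 0) (by decide +kernel)
    exact ⟨x⟩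
  · refine ⟨![pairCls 3 4 (by decide), pairCls 1 2 (by decide), pairCls 0 5 (by decide)], ?_⟩
    intro x
    obtain ⟨X, Y, Z, a, b, c, h1, h2, hx⟩ := tot_311 (m := 7) (n := 2) (by norm_num)
      (by norm_num) ndvd_311_72 sq_bad_72_311 x
    have hup := c3_upper X Y Z h1 h2
    by_contra hcon
    push Not at hcon
    have e0 := (pair_orth hx 3 4 (by decide)).1 (hcon 0)
    have e1 := (pair_orth hx 1 2 (by decide)).1 (hcon 1)
    have e2 := (pair_orth hx 0 5 (by decide)).1 (hcon 2)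
    have r0 : rvec a b c 3 = rvec a b c 4 := rfl
    have r1 : rvec a b c 1 = rvec a b c 2 := rfl
    have r2 : rvec a b c 0 = rvec a b c 5 := rfl
    simp only [r0, r1, r2] at e0 e1 e2
    exact hup ⟨add_right_cancel e0, add_right_cancel e1, add_right_cancel e2⟩
  · intro r hr
    refine lower_bound 3 2 (by norm_num) (by norm_num) 0 (by norm_num) Fin.elim0 N3
      (by rw [N3_card]; norm_num) ?_ r hr
    intro v hv _
    exact real3 v hv

/-! ### smoothness -/

theorem smooth_of {m n : ℤ} (hb : bad m n ≠ 0) : SmoothQuartic m n := by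
  intro x y z h1 h2 h3
  have hb' : ((bad m n : ℤ) : ℂ) ≠ 0 := by exact_mod_cast hb
  exact no_singular hb' x y z h1 h2 h3

theorem main' :
    (SmoothQuartic 3 1 ∧ SmoothQuartic 2 1 ∧ SmoothQuartic 7 2) ∧
    (Nonempty (Adelic 7 2 (-311)) ∧ IsLeast {r | Obstruct 7 2 (-311) r} 3) ∧
    (Nonempty (Adelic 3 1 (41 * 89)) ∧ IsLeast {r | Obstruct 3 1 (41 * 89) r} 4) ∧
    (Nonempty (Adelic 2 1 (43 * 67)) ∧ IsLeast {r | Obstruct 2 1 (43 * 67) r} 5) ∧
    (Nonempty (Adelic 3 1 (-311)) ∧ IsLeast {r | Obstruct 3 1 (-311) r} 6) :=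
  ⟨⟨smooth_of (by norm_num [bad, kap]), smooth_of (by norm_num [bad, kap]),
    smooth_of (by norm_num [bad, kap])⟩, case3, case4, case5, case6⟩

end Pool.Agent.Helper8.DP2
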