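import Pool.Agent.Helper8.DP2.Cases

set_option autoImplicit false

namespace Pool.Agent.Helper8.DP2

open Primitive

/-- The local invariant depends only on the point of the weighted projective space. -/
theorem inv_well {m n d : ℤ} (hm : m ≠ 0) (hb : bad m n ≠ 0) (hd : d ≠ 0)
    {K : Type} [Field K] [CharZero K] (P Q : Pt m n d K) (l : K) (hl : l ≠ 0)
    (h1 : Q.x = l * P.x) (h2 : Q.y = l * P.y) (h3 : Q.z = l * P.z) (h4 : Q.w = l ^ 2 * P.w)
    (T : Finset (Fin 7)) (hT : Even T.card) : inv P T = inv Q T := by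
  by_cases hs : IsSquare (d : K)
  · have h := (sq_place (m := m) (n := n) hm hd hs).1
    rw [h, h]
  · have e : Q = scale l hl P := by
      cases Q
      simp only at h1 h2 h3 h4
      subst h1 h2 h3 h4
      rfl
    rw [e]
    exact inv_scale (by norm_num) (by exact_mod_cast hd) (by exact_mod_cast hb) hs P l hl T hT

/-- almost all local invariants vanish -/
theorem fin_supp {m n d : ℤ} (hm : m ≠ 0) (hd0 : d ≠ 0)
    (hbad : ∀ (p : ℕ) [Fact p.Prime], (p : ℤ) ∣ bad m n → IsSquare (d : ℚ_[p]))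
    (x : Adelic m n d) (T : Finset (Fin 7)) (hT : Even T.card) :
    {p : ℕ | x.invAt T p ≠ 0}.Finite := by
  apply Set.Finite.subset (Nat.divisors d.natAbs).finite_toSet
  intro p hp
  by_contra hcon
  apply hp
  unfold Adelic.invAt
  split_ifs with h
  · have := Fact.mk h
    have hnd : ¬ (p : ℤ) ∣ d := by
      intro hdv
      apply hcon
      rw [Finset.mem_coe, Nat.mem_divisors]
      exact ⟨Int.natCast_dvd.1 hdv, Int.natAbs_ne_zero.2 hd0⟩
    have h0 := (triv_place hm hd0 hbad p hnd).1 (x.fin p) T hT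
    rw [h0]
    simp
  · rfl

/-- `w ^ 2 = d F` is a del Pezzo surface of degree two over `ℚ` (the quartic `F = 0` is
smooth and `d ≠ 0`) with points everywhere locally; the local invariants of the classes
`A_T` are well defined and almost all zero; and `s` is the least number of classes `A_T`
to which no adelic point is orthogonal. -/
def NeedsExactly (m n d : ℤ) (s : ℕ) : Prop :=
  SmoothQuartic m n ∧ d ≠ 0 ∧ Nonempty (Adelic m n d) ∧
  (∀ (K : Type) [Field K] [CharZero K] (P Q : Pt m n d K) (l : K), l ≠ 0 →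
    Q.x = l * P.x → Q.y = l * P.y → Q.z = l * P.z → Q.w = l ^ 2 * P.w →
    ∀ T : Finset (Fin 7), Even T.card → inv P T = inv Q T) ∧
  (∀ (x : Adelic m n d) (T : Finset (Fin 7)), Even T.card →
    {p : ℕ | x.invAt T p ≠ 0}.Finite) ∧
  IsLeast {r | Obstruct m n d r} s

theorem needs_of {m n d : ℤ} {s : ℕ} (hm : m ≠ 0) (hb : bad m n ≠ 0) (hd0 : d ≠ 0)
    (hbad : ∀ (p : ℕ) [Fact p.Prime], (p : ℤ) ∣ bad m n → IsSquare (d : ℚ_[p]))
    (h : Nonempty (Adelic m n d) ∧ IsLeast {r | Obstruct m n d r} s) :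
    NeedsExactly m n d s :=
  ⟨smooth_of hb, hd0, h.1,
    fun _ _ _ P Q l hl h1 h2 h3 h4 T hT => inv_well hm hb hd0 P Q l hl h1 h2 h3 h4 T hT,
    fun x T hT => fin_supp hm hd0 hbad x T hT, h.2⟩

theorem final : NeedsExactly 7 2 (-311) 3 ∧ NeedsExactly 3 1 (41 * 89) 4 ∧
    NeedsExactly 2 1 (43 * 67) 5 ∧ NeedsExactly 3 1 (-311) 6 :=
  ⟨needs_of (by norm_num) (by norm_num [bad, kap]) (by norm_num) sq_bad_72_311 case3,
    needs_of (by norm_num) (by norm_num [bad, kap]) (by norm_num) sq_bad_31_3649 case4,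
    needs_of (by norm_num) (by norm_num [bad, kap]) (by norm_num) sq_bad_21_2881 case5,
    needs_of (by norm_num) (by norm_num [bad, kap]) (by norm_num) sq_bad_31_311 case6⟩

end Pool.Agent.Helper8.DP2
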